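import Pool.Agent.H15.G.R_seed8.TH745.MN.Defs

/-! From `P(1, 1, K ^ 2)` to the plane. -/

set_option autoImplicit false

namespace Pool.Agent.TH48.MN

open Finset Pool.Agent.TH176.Nag Pool.Agent.TH603.Sur Pool.Agent.TH745.MN

theorem Emp_plane_of_WM {ι : Type} {w : ι → ℕ} {K d : ℕ} (hK : 1 ≤ K)
    (h : Emp w (WM (K ^ 2) (K * d))) :
    Emp w {m : ℤ × ℤ | 0 ≤ m.1 ∧ 0 ≤ m.2 ∧ m.1 + m.2 ≤ (d : ℤ)} := by
  have hK' : (1 : ℝ) ≤ K := by exact_mod_cast hK
  have h1 : Emp w (Reg 0 (K * d) K (K * (K - 1))) := by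
    refine h.comap 1 (-K) 0 1 0 0 (by norm_num) ?_
    rintro ⟨a, b⟩ ⟨h1, h2, h3⟩
    simp only at h1 h2 h3
    have h2' : (K : ℤ) * b ≤ a := by
      have : (K : ℝ) * b ≤ a := by linarith
      exact_mod_cast this
    have h3' : a + K * (K - 1) * b ≤ K * (d : ℤ) := by
      have : (a : ℝ) + K * (K - 1) * b ≤ K * (d : ℝ) := by linarith
      exact_mod_cast this
    refine ⟨by simp only; linarith, by simp only; linarith, ?_⟩
    simp only
    push_cast
    linarith
  have h2 : Emp w (Reg 0 d 0 1) := by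
    refine Emp_regA 1 K 1 0 (by ring) (by norm_num) (by push_cast; linarith)
      (by push_cast; linarith) (by norm_num) (α' := 0) (β' := K * d) (μ' := K)
      (ν' := K * (K - 1)) (by push_cast; ring) (by push_cast; ring) (by push_cast; ring)
      (by push_cast; ring) h1
  refine h2.mono ?_
  rintro ⟨a, b⟩ ⟨g1, g2, g3⟩
  simp only at g1 g2 g3
  refine ⟨g2, ?_, ?_⟩
  · simp only
    have : (0 : ℝ) ≤ a := by exact_mod_cast g1
    linarith
  · simp only
    have : (a : ℝ) + b ≤ d := by exact_mod_cast g3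
    linarith

theorem Sur_plane_of_WM {ι : Type} [Fintype ι] {w : ι → ℕ} {K d D : ℕ} (hK : 1 ≤ K)
    (hD : D + K ^ 2 + 2 ≤ K * (d + 3)) (h : Sur w (WM (K ^ 2) D)) :
    Sur w {m : ℤ × ℤ | 0 ≤ m.1 ∧ 0 ≤ m.2 ∧ m.1 + m.2 ≤ (d : ℤ)} := by
  have hK' : (1 : ℝ) ≤ K := by exact_mod_cast hK
  have hD' : (D : ℤ) + K ^ 2 + 2 ≤ K * (d + 3) := by exact_mod_cast hD
  have h1 : Sur w (RegO 0 (K * (d + 3)) K (K * (K - 1))) := by
    refine Sur_shear (-(K : ℤ)) ?_
    refine h.shift (-1) (-1) ?_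
    rintro ⟨a, b⟩ ⟨h1, h2, h3⟩
    simp only at h1 h2 h3
    push_cast at h3
    refine ⟨by simp only; linarith, ?_, ?_⟩
    · simp only
      have : (0 : ℝ) ≤ a := by exact_mod_cast h1
      push_cast
      linarith
    · simp only
      have h4 : a + 1 + K ^ 2 * (b + 1) < K * ((d : ℤ) + 3) := by linarith
      have h5 : (a : ℝ) + 1 + K ^ 2 * (b + 1) < K * ((d : ℝ) + 3) := by exact_mod_cast h4
      push_cast
      linarith
  have h2 : Sur w (RegO 0 (d + 3) 0 1) := by
    refine Sur_regA 1 K 1 0 (by ring) (by norm_num) (by push_cast; linarith)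
      (by push_cast; linarith) (by norm_num) (α' := 0) (β' := K * (d + 3)) (μ' := K)
      (ν' := K * (K - 1)) (by push_cast; ring) (by push_cast; ring) (by push_cast; ring)
      (by push_cast; ring) h1
  refine h2.shift 1 1 ?_
  rintro ⟨a, b⟩ ⟨g1, g2, g3⟩
  simp only at g1 g2 g3
  have g2' : 0 < a := by
    have : (0 : ℝ) < a := by linarith
    exact_mod_cast this
  have g3' : a + b < (d : ℤ) + 3 := by
    have : (a : ℝ) + b < (d : ℝ) + 3 := by linarith
    exact_mod_cast this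
  refine ⟨by simp only; omega, by simp only; omega, by simp only; omega⟩

end Pool.Agent.TH48.MN
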